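import Pool.Agent.Q24.SG.Bad

/-!
# `ℓ²`-homology of all right-angled Coxeter groups above one third of the number of generators

Let `G` be an arbitrary finite graph and `W G` the right-angled Coxeter group. It acts geometrically on its Davis
complex, which is contractible. If the flag complex of `G` is a full subcomplex of a flag triangulation of the
`(n-1)`-sphere, then `W G` acts geometrically on a contractible `n`-manifold with boundary.

We show that the reduced `ℓ²`-homology of `W G` vanishes in all degrees `i > N / 3`, where `N` is the number of
vertices of `G`. So the question has a positive answer for all right-angled Coxeter groups with `N` generators whose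
cocompact action dimension is at least `2 N / 3`. (The bound `N / 3` cannot be improved: the product of `r` copies of
the free product of three groups of order two is virtually a product of free groups of rank two.)

More generally, the `ℓ²`-homology vanishes in all degrees `i ≥ r` if `N < 3 r + c` for every clique `T` with `r`
elements with `c` common neighbours. For full subcomplexes of flag triangulated `(n-1)`-spheres with `2 n + k`
vertices this implies the vanishing in all degrees `i > k`: see the second statement, where the graph `G` is an
arbitrary full subgraph of a graph `K`.
-/

set_option autoImplicit false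

namespace Pool.Agent.Results.MP_ea75ba_gt.AboveThird

open Pool.Agent.W907.SG Pool.Agent.TH652.Above Pool.Agent.Q24.SG Pool.Agent.Y132.SI

/-- (1) For every finite graph `G` the reduced `ℓ²`-homology of the right-angled Coxeter group `W G` vanishes in all
degrees `i` with `3 i > |V|`.
(2) Let `K` be a finite graph, `r ≥ 1`, and suppose that every clique `T` of `K` with `r` elements has more than
`|V| - 3 r` common neighbours (for the graph of a flag triangulated `(n-1)`-sphere with at most `2 n + r - 1` vertices
this is true). Then for every full subgraph `K.induce A` of `K` the reduced `ℓ²`-homology of the right-angled Coxeter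
group vanishes in all degrees `i ≥ r`. -/
theorem result :
    (∀ (V : Type) [Fintype V] [LinearOrder V] (G : SimpleGraph V) (i : ℕ), Fintype.card V < 3 * i → L2Van G i) ∧
    (∀ (V : Type) [Fintype V] [LinearOrder V] (K : SimpleGraph V) (r : ℕ), 1 ≤ r →
      (∀ T : Finset V, K.IsClique (T : Set V) → T.card = r →
        Fintype.card V < 3 * r + {u : V | ∀ t ∈ T, K.Adj t u}.ncard) →
      ∀ (A : Set V) [Fintype ↥A] (i : ℕ), r ≤ i → L2Van (K.induce A) i) := by
  classical
  have h2 : ∀ (V : Type) [Fintype V] [LinearOrder V] (K : SimpleGraph V) (r : ℕ), 1 ≤ r →
      (∀ T : Finset V, K.IsClique (T : Set V) → T.card = r →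
        Fintype.card V < 3 * r + {u : V | ∀ t ∈ T, K.Adj t u}.ncard) →
      ∀ (A : Set V) [Fintype ↥A] (i : ℕ), r ≤ i → L2Van (K.induce A) i := by
    intro V _ _ K r hr h A _ i hi
    have h1 : CR K Set.univ r := CR_univ (by
      intro T hT hc
      rw [Nat.card_eq_fintype_card]
      exact h T hT hc)
    exact few K _ A r rfl hr (h1.mono (Set.subset_univ A)) i hi _ _
  refine ⟨?_, h2⟩
  intro V _ _ G i hi
  have h3 := few G _ Set.univ i rfl (by omega) (CR_univ (by
      intro T _ _
      rw [Nat.card_eq_fintype_card]
      omega)) i le_rfl
  exact (lv_univ G i).1 h3 _ _

end Pool.Agent.Results.MP_ea75ba_gt.AboveThird
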