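import Pool.Agent.Q103.SG.ChainR

/-!
# `L²`-homology of groups acting geometrically on contractible manifolds with boundary

Let an infinite group `G` (possibly with torsion) act geometrically on a contractible `n`-manifold `M`
with non-empty boundary, `n ≥ 2`, and let `P` be the stabilizer of a component of the boundary.
Theorem: if `L²H_(n-1)(G) ≠ 0` then `P` is contained in a subgroup `H` of `G` of infinite index which is
weakly malnormal (`H ∩ g H g⁻¹` is finite for all `g ∉ H`) and which contains every finitely generated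
subgroup `Q` of `G` with vanishing first `ℓ²`-Betti number and infinite `H ∩ Q`.  Since `L²H_n(G) = 0`,
all groups with `cadim(G) ≤ 4` for which a contractible manifold of dimension `cadim(G)` has a boundary
component whose stabilizer is not in such a subgroup `H` have `L²H_i(G) = 0` for `i > cadim(G) / 2`.

Algebraic form.  The cellular chain complex of `M` with real coefficients is a finite complex of
finitely generated projective `ℝ[G]`-modules (a cell with stabilizer `F` gives the summand
`ℝ[G] e`, where `e` is an idempotent in `ℝ[F]`), so it is given by idempotent matrices `E_i` and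
boundary matrices `D_i` over `ℝ[G]`.  Its cohomology with coefficients in `ℝ[G]` is the cohomology
with compact supports of `M`, by Poincaré-Lefschetz duality `H_(n-i)(M, ∂M; ℝ)`, up to the orientation
character `w`.  We only use the degrees `i = n` and `i = n - 1`, where these are `0` and the kernel of
the augmentation `ℝ[B] → ℝ`; here `B` is the set of the components of `∂M`.  (Their stabilizers are
infinite, since a compact component of the boundary of a non-compact contractible manifold would be a
non-trivial cycle.)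

Idea of the proof.  By duality a harmonic cochain in degree `n - 1` is an equivariant map from
`ker (ℝ[B] → ℝ)` to `ℓ²(G)`, so it gives a cocycle `G → ℓ²(G)` which vanishes on `P`, and the map is zero
if the cocycle is zero, because the other stabilizers are infinite.  The zeros of a cocycle form a
weakly malnormal subgroup `H`; and `H` contains `Q` if `H ∩ Q` is infinite and `b_1(Q) = 0`, by the
lemma `Q103.SG.coc_zero`.
-/

set_option autoImplicit false

namespace Pool.Agent.Results.MP_ea75ba_gt.BoundaryStabilizers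

open scoped Matrix

/-- Vectors over the real group ring. -/
abbrev Vec (G : Type) [Group G] (k : ℕ) : Type := Fin k → MonoidAlgebra ℝ G

/-- Matrices over the real group ring. -/
abbrev Mat (G : Type) [Group G] (b a : ℕ) : Type := Matrix (Fin b) (Fin a) (MonoidAlgebra ℝ G)

variable {G : Type} [Group G] {a b d : ℕ}

/-- Row vector times matrix. -/
noncomputable def rowMul (v : Vec G b) (D : Mat G b a) : Vec G a := v ᵥ* D

/-- Matrix times column vector. -/
noncomputable def colMul (D : Mat G b a) (u : Vec G a) : Vec G b := D *ᵥ u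

/-- Product of matrices. -/
noncomputable def matMul (D : Mat G b a) (C : Mat G a d) : Mat G b d := D * C

/-- Multiplication of a row vector by `g` from the left. -/
noncomputable def leftMul (g : G) (v : Vec G a) : Vec G a := fun j => MonoidAlgebra.of ℝ G g * v j

/-- Multiplication of a column vector by `g` from the right. -/
noncomputable def rightMul (u : Vec G a) (g : G) : Vec G a := fun j => u j * MonoidAlgebra.of ℝ G g

/-- Value of a linear functional. -/
noncomputable def app (θ : Vec G a →ₗ[ℝ] ℝ) (v : Vec G a) : ℝ := θ v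

/-- Value of a linear map to `ℝ[B]`. -/
noncomputable def appB {B : Type} (θ : Vec G a →ₗ[ℝ] (B →₀ ℝ)) (v : Vec G a) : B →₀ ℝ := θ v

/-- The sign of `g` as a real number. -/
def sign (w : G →* ℤˣ) (g : G) : ℝ := (((w g : ℤˣ) : ℤ) : ℝ)

/-- The augmentation `ℝ[B] → ℝ`. -/
def augmentation {B : Type} (z : B →₀ ℝ) : ℝ := z.sum fun _ k => k

/-- The map `z ↦ w(g) g⁻¹ z` of `ℝ[B]`. -/
noncomputable def twist (w : G →* ℤˣ) {B : Type} [MulAction G B] (g : G) (z : B →₀ ℝ) : B →₀ ℝ :=
  sign w g • Finsupp.mapDomain (fun p => g⁻¹ • p) z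

/-- `(c, E, D, ε)` is a resolution of the trivial module `ℝ` by finitely generated projective
`ℝ[G]`-modules of length at most `m`: the module in degree `i` is `P_i = {v ∈ ℝ[G]^(c i) | v E_i = v}`
(row vectors), where `E_i` is an idempotent matrix, the boundary operators are `v ↦ v D_i`, and
`c i = 0` for `i > m`. -/
structure IsProjectiveResolution (c : ℕ → ℕ) (E : ∀ i, Mat G (c i) (c i))
    (D : ∀ i, Mat G (c (i + 1)) (c i)) (ε : Vec G (c 0) →ₗ[ℝ] ℝ) (m : ℕ) : Prop where
  bounded : ∀ i, m < i → c i = 0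
  idem : ∀ i, matMul (E i) (E i) = E i
  left : ∀ i, matMul (E (i + 1)) (D i) = D i
  right : ∀ i, matMul (D i) (E i) = D i
  equivariant : ∀ g v, app ε (leftMul g v) = app ε v
  surjective : ∃ v, rowMul v (E 0) = v ∧ app ε v = 1
  exact_zero : ∀ v, rowMul v (E 0) = v → (app ε v = 0 ↔ ∃ u, rowMul u (D 0) = v)
  exact_succ : ∀ i v, rowMul v (E (i + 1)) = v →
    (rowMul v (D i) = 0 ↔ ∃ u, rowMul u (D (i + 1)) = v)

/-- Cocycles in degree `n - 1`. -/
def IsCocycle (E₁ : Mat G b b) (D₁ : Mat G d b) (u : Vec G b) : Prop :=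
  colMul E₁ u = u ∧ colMul D₁ u = 0

/-- `H^n(G; ℝ[G]) = 0` and `H^(n-1)(G; ℝ[G]) ≅ ker(ℝ[B] → ℝ)` (up to `w`): the case of a manifold
with boundary, where `B` is the set of the components of the boundary. -/
structure BoundaryDuality (E₁ : Mat G b b) (E₂ : Mat G d d) (D₀ : Mat G b a) (D₁ : Mat G d b)
    (w : G →* ℤˣ) (B : Type) [MulAction G B] : Prop where
  top : ∀ u, colMul E₂ u = u → ∃ t, colMul D₁ t = u
  next : ∃ θ : Vec G b →ₗ[ℝ] (B →₀ ℝ),
    (∀ u, IsCocycle E₁ D₁ u → (appB θ u = 0 ↔ ∃ t, colMul D₀ t = u)) ∧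
    (∀ z, (∃ u, IsCocycle E₁ D₁ u ∧ appB θ u = z) ↔ augmentation z = 0) ∧
    ∀ g u, IsCocycle E₁ D₁ u → appB θ (rightMul u g) = twist w g (appB θ u)

/-- The Hilbert space `ℓ²(G)` (with real scalars). -/
abbrev EllTwo (G : Type) : Type := lp (fun _ : G => ℝ) 2

/-- The Hilbert space `ℓ²(G)^k`. -/
abbrev Cochains (G : Type) (k : ℕ) : Type := PiLp 2 (fun _ : Fin k => EllTwo G)

/-- The action of the group ring: `(r f)(x) = ∑_g r_g f(g⁻¹ x)`. -/
noncomputable def act (r : MonoidAlgebra ℝ G) (f : G → ℝ) (x : G) : ℝ :=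
  r.coeff.sum fun g k => k * f (g⁻¹ * x)

/-- `z = D y`. -/
def IsImage (D : Mat G b a) (y : Cochains G a) (z : Cochains G b) : Prop :=
  ∀ (j : Fin b) (x : G), z j x = ∑ k, act (D j k) (y k) x

/-- The harmonic `ℓ²`-cochains in degree `i`: the elements `u` of `ℓ²(G)^(c i)` with `E_i u = u` (the
`ℓ²`-cochains) and `D_i u = 0` which are orthogonal to all coboundaries.  They are the orthogonal
complement of the closure of the coboundaries in the space of cocycles. -/
def Harmonic (c : ℕ → ℕ) (E : ∀ i, Mat G (c i) (c i)) (D : ∀ i, Mat G (c (i + 1)) (c i)) :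
    ∀ i, Set (Cochains G (c i))
  | 0 => {u | IsImage (E 0) u u ∧ IsImage (D 0) u 0}
  | (i + 1) => {u | IsImage (E (i + 1)) u u ∧ IsImage (D (i + 1)) u 0 ∧
      ∀ y z, IsImage (D i) y z → inner ℝ z u = 0}

/-- `L²H_i = 0`. -/
def L2Zero (c : ℕ → ℕ) (E : ∀ i, Mat G (c i) (c i)) (D : ∀ i, Mat G (c (i + 1)) (c i)) (i : ℕ) :
    Prop := ∀ u ∈ Harmonic c E D i, u = 0

/-- The first `ℓ²`-Betti number of the finitely generated group `Q` is zero: the reduced first
cohomology with coefficients in `ℓ²(Q)` vanishes, that is, every cocycle `c : Q → ℓ²(Q)` is a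
pointwise limit of coboundaries `g ↦ g u - u`, where `(g u)(x) = u(g⁻¹ x)`. -/
def FirstBettiZero (Q : Type) [Group Q] : Prop :=
  ∀ c : Q → EllTwo Q, (∀ g h x, c (g * h) x = c g x + c h (g⁻¹ * x)) →
    ∀ (T : Finset Q) (δ : ℝ), 0 < δ → ∃ u : EllTwo Q, ∀ g ∈ T, ∃ v : EllTwo Q,
      (∀ x, v x = c g x - (u (g⁻¹ * x) - u x)) ∧ ‖v‖ < δ

/-- `H` is weakly malnormal: `H ∩ g H g⁻¹` is finite for all `g ∉ H`. -/
def WeaklyMalnormal (H : Subgroup G) : Prop :=
  ∀ g, g ∉ H → {h : G | h ∈ H ∧ g⁻¹ * h * g ∈ H}.Finite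

/-- `H` contains the finitely generated subgroups with vanishing first `ℓ²`-Betti number which meet
it in an infinite set. -/
def Absorbing (H : Subgroup G) : Prop :=
  ∀ Q : Subgroup G, Q.FG → FirstBettiZero Q → {h : G | h ∈ H ∧ h ∈ Q}.Infinite → Q ≤ H

section bridge

open Pool.Agent.Q103.SG Pool.Agent.Helper386.PD3

theorem lr_eq_act (r : RG G) (f : L2 G) (x : G) : lr r f x = act r f x := by
  induction r using rg_ind with
  | h1 g =>
    rw [lr_of, act]
    change f (g⁻¹ * x) = (Finsupp.single g (1 : ℝ)).sum fun g k => k * f (g⁻¹ * x)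
    rw [Finsupp.sum_single_index (by simp)]
    simp
  | h2 r s hr hs =>
    rw [lr_add]
    change lr r f x + lr s f x = _
    rw [hr, hs, act, act, act, MonoidAlgebra.coeff_add, Finsupp.sum_add_index']
    · intro g
      simp
    · intro g k l
      ring
  | h3 c r hr =>
    rw [lr_smul]
    change c * lr r f x = _
    rw [hr, act, act, MonoidAlgebra.coeff_smul,
      Finsupp.sum_smul_index' (h := fun g k => k * f (g⁻¹ * x)) (fun g => zero_mul _),
      Finsupp.mul_sum]
    refine Finsupp.sum_congr fun g _ => ?_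
    rw [smul_eq_mul, mul_assoc]

theorem isImage_iff (D : Mat G b a) (y : VV G a) (z : VV G b) : IsImage D y z ↔ z = cb D y := by
  have h1 : ∀ j x, (cb D y) j x = ∑ k, act (D j k) (y k) x := by
    intro j x
    rw [cb_apply, qr]
    have : (∑ k, lr (D j k) (y k) : L2 G) x = ∑ k, (lr (D j k) (y k)) x :=
      map_sum (lp.evalCLM ℝ (fun _ : G => ℝ) 2 x) _ _
    rw [this]
    exact Finset.sum_congr rfl fun k _ => lr_eq_act _ _ _
  constructor
  · intro h
    apply vv_ext
    intro j
    ext x
    rw [h1]
    exact h j x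
  · rintro rfl j x
    exact h1 j x

end bridge

theorem approx_of {Q : Type} [Group Q] (h : FirstBettiZero Q) : Pool.Agent.Q103.SG.Approx Q := by
  intro b hb T δ hδ
  obtain ⟨u, hu⟩ := h b (fun g k x => by
    rw [hb]
    rfl) T δ hδ
  refine ⟨u, fun g hg => ?_⟩
  obtain ⟨v, h1, h2⟩ := hu g hg
  have h3 : v = b g - (Pool.Agent.Helper386.PD3.lam2 g u - u) := by
    ext x
    rw [h1]
    rfl
  rwa [← h3]

/-- The zeros of a cocycle form a weakly malnormal subgroup. -/
theorem van_malnormal {G : Type} [Group G] {c : G → Pool.Agent.Helper386.PD3.L2 G}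
    (hc : ∀ g h, c (g * h) = c g + Pool.Agent.Helper386.PD3.lam2 g (c h)) :
    WeaklyMalnormal (Pool.Agent.Q103.SG.vanS c hc) := by
  intro g hg
  by_contra hinf
  apply hg
  let H := Pool.Agent.Q103.SG.vanS c hc
  let S : Subgroup G := H ⊓ H.comap (MulAut.conj g⁻¹).toMonoidHom
  have hS : ∀ s, s ∈ S ↔ s ∈ H ∧ g⁻¹ * s * g ∈ H := by
    intro s
    rw [Subgroup.mem_inf, Subgroup.mem_comap]
    change s ∈ H ∧ g⁻¹ * s * g⁻¹⁻¹ ∈ H ↔ _
    rw [inv_inv]
  have hSi : Infinite S := by
    have h1 : (S : Set G) = {h : G | h ∈ H ∧ g⁻¹ * h * g ∈ H} := Set.ext fun s => hS s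
    have h2 : (S : Set G).Infinite := by
      rw [h1]
      exact hinf
    exact h2.to_subtype
  exact Pool.Agent.Q103.SG.van_conj hc H (fun h hh => hh) g S hSi (fun s hs => ((hS s).1 hs).1)
    fun s hs => ((hS s).1 hs).2

/-- The zeros of a cocycle form an absorbing subgroup. -/
theorem van_absorbing {G : Type} [Group G] {c : G → Pool.Agent.Helper386.PD3.L2 G}
    (hc : ∀ g h, c (g * h) = c g + Pool.Agent.Helper386.PD3.lam2 g (c h)) :
    Absorbing (Pool.Agent.Q103.SG.vanS c hc) := by
  intro Q hQ hb hinf g hg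
  let H := Pool.Agent.Q103.SG.vanS c hc
  have hSi : Infinite (H ⊓ Q : Subgroup G) := by
    have h1 : ((H ⊓ Q : Subgroup G) : Set G) = {h : G | h ∈ H ∧ h ∈ Q} := rfl
    have h2 : ((H ⊓ Q : Subgroup G) : Set G).Infinite := by
      rw [h1]
      exact hinf
    exact h2.to_subtype
  exact Pool.Agent.Q103.SG.coc_zero_sub (approx_of hb) hQ H hSi c hc (fun s hs => hs) hg

/-- A proper weakly malnormal subgroup of an infinite group has infinite index. -/
theorem index_zero {G : Type} [Group G] [Infinite G] {H : Subgroup G} (hH : WeaklyMalnormal H)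
    (hne : H ≠ ⊤) : H.index = 0 := by
  by_contra hi
  have hfi : H.FiniteIndex := ⟨hi⟩
  apply hne
  rw [Subgroup.eq_top_iff']
  intro g
  by_contra hg
  have h1 := hH g hg
  have h2 : (H.normalCore : Set G).Finite := by
    refine h1.subset fun s hs => ⟨H.normalCore_le hs, ?_⟩
    have h3 := H.normalCore_normal.conj_mem s hs g⁻¹
    rw [inv_inv] at h3
    exact H.normalCore_le h3
  have h4 : Finite H.normalCore := h2.to_subtype
  have h5 : Finite G := (Subgroup.finite_iff_finite_and_finiteIndex H.normalCore).2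
    ⟨h4, inferInstance⟩
  exact not_finite_iff_infinite.2 ‹Infinite G› h5

/-- **`L²`-homology above the middle dimension, or malnormal subgroups.**  Let `G` be a group, and let
`(c, E, D, ε)` be a resolution of `ℝ` by finitely generated projective `ℝ[G]`-modules of length at most
`n = q + 2` with duality in the degrees `n` and `n - 1`, where `B` is a `G`-set with infinite
stabilizers; for instance the cellular chain complex of a contractible `n`-manifold `M` with boundary
on which `G` acts geometrically, and the set `B` of the boundary components.  Let `p₀ ∈ B`.  Then the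
stabilizer of `p₀` is contained in a weakly malnormal subgroup `H` of infinite index in `G` which
contains all finitely generated subgroups of `G` with vanishing first `ℓ²`-Betti number which meet it
in an infinite set; or `L²H_i(G) = 0` for `i = 0` and for `i ≥ n - 1`, so that `L²H_i(G) = 0` for all
`i > n / 2` if `n ≤ 4`. -/
theorem result {q : ℕ} {G : Type} [Group G] {c : ℕ → ℕ} {E : ∀ i, Mat G (c i) (c i)}
    {D : ∀ i, Mat G (c (i + 1)) (c i)} {ε : Vec G (c 0) →ₗ[ℝ] ℝ}
    (hD : IsProjectiveResolution c E D ε (q + 2)) {B : Type} [MulAction G B]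
    (hB : ∀ p : B, Infinite (MulAction.stabilizer G p)) (w : G →* ℤˣ)
    (hdual : BoundaryDuality (E (q + 1)) (E (q + 2)) (D q) (D (q + 1)) w B) (p₀ : B) :
    (∃ H : Subgroup G, MulAction.stabilizer G p₀ ≤ H ∧ H.index = 0 ∧ WeaklyMalnormal H ∧
      Absorbing H) ∨
    ((∀ i, i = 0 ∨ q + 1 ≤ i → L2Zero c E D i) ∧
      (q + 2 ≤ 4 → ∀ i, q + 2 < 2 * i → L2Zero c E D i)) := by
  have hst := hB p₀
  have hinf : Infinite G := Infinite.of_injective
    (Subtype.val : MulAction.stabilizer G p₀ → G) Subtype.val_injective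
  have hne : Nonempty B := ⟨p₀⟩
  by_cases hp : ∀ c : G → Pool.Agent.Helper386.PD3.L2 G,
      (∀ g h, c (g * h) = c g + Pool.Agent.Helper386.PD3.lam2 g (c h)) →
      (∀ s ∈ MulAction.stabilizer G p₀, c s = 0) → ∀ g, c g = 0
  · right
    have hlow : Pool.Agent.Q103.SG.LowR (E 0) (E 1) (D 0) (D 1) ε :=
      { ee0 := hD.idem 0
        ee1 := hD.idem 1
        d0e0 := hD.right 0
        e1d0 := hD.left 0
        equi := hD.equivariant
        surj := hD.surjective
        epsd := fun v => (hD.exact_zero (v ᵥ* D 0) (by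
          change (v ᵥ* D 0) ᵥ* E 0 = _
          rw [Matrix.vecMul_vecMul]
          exact congrArg _ (hD.right 0))).2 ⟨v, rfl⟩
        ex0 := fun v hv h0 => (hD.exact_zero v hv).1 h0
        ex1 := fun v hv h0 => (hD.exact_succ 0 v hv).1 h0 }
    have h1 : ∀ i, i = 0 ∨ q + 1 ≤ i → L2Zero c E D i := by
      intro i hi
      by_cases hi0 : i = 0
      · subst hi0
        rintro u ⟨hu1, hu2⟩
        exact Pool.Agent.Q103.SG.lowR_zero hlow ((isImage_iff _ _ _).1 hu1).symm
          ((isImage_iff _ _ _).1 hu2).symm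
      have hq : q + 1 ≤ i := hi.resolve_left hi0
      rcases Nat.lt_or_ge (q + 2) i with h2 | h2
      · intro u _
        apply Pool.Agent.Helper386.PD3.vv_ext
        intro k
        have h8 := k.isLt
        have h9 := hD.bounded i h2
        omega
      have hid := hD.idem (q + 1)
      have hid' := hD.idem (q + 2)
      have hl := hD.left (q + 1)
      have hr := hD.right (q + 1)
      rcases Nat.lt_or_ge i (q + 2) with h3 | h3
      · obtain rfl : i = q + 1 := by omega
        rintro u ⟨hu1, hu2, hu3⟩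
        obtain ⟨θ, t1, t2, t3⟩ := hdual.next
        exact Pool.Agent.Q103.SG.bdryR_one_of w
          (fun β b1 b2 => Pool.Agent.Q103.SG.pair_zero_of hB p₀ hp β b1 b2) hid' hid hl hr
          hdual.top θ
          (fun u h1 h2 h3 => (t1 u ⟨h1, h2⟩).1 h3)
          (fun z => (by
            constructor
            · rintro ⟨u, h1, h2, h3⟩
              exact ⟨u, ⟨h1, h2⟩, h3⟩
            · rintro ⟨u, ⟨h1, h2⟩, h3⟩
              exact ⟨u, h1, h2, h3⟩ : _ ↔ _).trans (t2 z))
          (fun g u h1 h2 => t3 g u ⟨h1, h2⟩)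
          ((isImage_iff _ _ _).1 hu1).symm
          ((isImage_iff _ _ _).1 hu2).symm fun y => hu3 y _ ((isImage_iff _ _ _).2 rfl)
      · obtain rfl : i = q + 2 := by omega
        rintro u ⟨hu1, hu2, hu3⟩
        exact Pool.Agent.Q103.SG.bdryR_zero hid' hdual.top ((isImage_iff _ _ _).1 hu1).symm
          fun y => hu3 y _ ((isImage_iff _ _ _).2 rfl)
    exact ⟨h1, fun hq i hi => h1 i (by omega)⟩
  · left
    push Not at hp
    obtain ⟨c, hc, hs, g, hg⟩ := hp
    have hm := van_malnormal hc
    refine ⟨Pool.Agent.Q103.SG.vanS c hc, fun s h => hs s h, index_zero hm fun htop => hg ?_, hm,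
      van_absorbing hc⟩
    have : g ∈ Pool.Agent.Q103.SG.vanS c hc := by rw [htop]; trivial
    exact this

end Pool.Agent.Results.MP_ea75ba_gt.BoundaryStabilizers
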