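import Pool.Agent.Q91.LB.Cpx

set_option autoImplicit false

/-! # `L²`-homology above the cohomological dimension of a co-amenable subgroup

The definitions are in `Pool/Agent/Q91/LB/Bet.lean` (`L²`-Betti numbers, co-amenable subgroups) and
`Pool/Agent/Q91/LB/Cpx.lean` (complexes, finite chains, maps which commute with the action of a
subgroup).
-/

universe u

namespace Pool.Agent.Results.MP_ea75ba_gt.CoamenableDimension

open Pool.Agent.Q91.LB Pool.Agent.Q91.LB.Bet Pool.Agent.Q91.LB.Cpx

/-- Let `M` be a complex of finitely generated free modules over the group algebra of `G`, for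
instance a resolution of `ℂ`, and `K` a co-amenable subgroup of `G` (not necessarily normal). Let
`e = n + 1 ≥ 1` be such that `M` is exact in all degrees `≥ e` and the cycles of degree `e` are a
direct summand of the chains of degree `e` over `K` (this is so if `M` is a resolution of `ℂ` and
`K` has cohomological dimension at most `e` over `ℂ`). Then `b_k(M) = 0` for all `k > e`. -/
theorem result {G : Type u} [Group G] (M : Cx G) (K : Subgroup G) (hK : CoAmenable K) (n : ℕ)
    (hex : ∀ k, n ≤ k → ExactAt M k) (hs : CyclesSplit K M n) :
    ∀ k, n + 1 < k → b M k = 0 := by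
  intro k hk
  obtain ⟨j, rfl⟩ : ∃ j, k = j + 2 := ⟨k - 2, by omega⟩
  have hr : ∀ x : G ⧸ K, ((Quotient.out x : G) : G ⧸ K) = x := fun x => Quotient.out_eq x
  exact betti_zero_of_cover K _ hK hr _ _
    (cover_zero_of_split K _ hr M n hex hs j (by omega))

end Pool.Agent.Results.MP_ea75ba_gt.CoamenableDimension
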