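import Pool.Agent.Q103.SG.ReD
import Pool.Agent.Q103.SG.Cat

/-!
# `L²`-homology of groups acting geometrically on contractible manifolds, and rank one isometries

Let an infinite group `G` (possibly with torsion) act geometrically on a contractible `n`-manifold
`M`, with or without boundary, `n ≥ 2`.  Suppose that `G` also acts geometrically on a proper
geodesically complete CAT(0) space (of any dimension) without rank one isometries.  Theorem:
`L²H_i(G) = 0` for `i ≤ 1` and for `i ≥ n - 1`.  In particular, if `n ≤ 4` then `L²H_i(G) = 0` for all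
`i ≠ n / 2`.  So for groups acting geometrically on CAT(0) spaces without rank one isometries
`L²H_i(G) = 0` for all `i > cadim(G) / 2` if `cadim(G) ≤ 4`, and the Singer conjecture for geometric
actions on contractible manifolds without boundary holds in dimension `≤ 4`.

Algebraic form.  The cellular chain complex of `M` with real coefficients is a finite complex of
finitely generated projective `ℝ[G]`-modules (a cell with stabilizer `F` gives the summand
`ℝ[G] e`, where `e` is an idempotent in `ℝ[F]`), so it is given by idempotent matrices `E_i` and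
boundary matrices `D_i` over `ℝ[G]`.  Its cohomology with coefficients in `ℝ[G]` is the cohomology
with compact supports of `M`, by Poincaré-Lefschetz duality `H_(n-i)(M, ∂M; ℝ)`, up to the orientation
character `w`.  We only use the degrees `i = n` and `i = n - 1`: if `∂M` is empty then these are `ℝ`
and `0`; if not, then these are `0` and the kernel of the augmentation `ℝ[B] → ℝ`, where `B` is the
set of the components of `∂M`.  (Their stabilizers are infinite, since a compact component of the
boundary of a non-compact contractible manifold would be a non-trivial cycle.)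

Idea of the proof.  The reduced first `ℓ²`-cohomology of `G` is zero since there are no harmonic
functions of finite energy (starting library `Y34.EL`).  For empty boundary we use duality.  In the
case with boundary we use the lemma that a cocycle `G → ℓ²(G)` which vanishes on an infinite subgroup
is zero if the reduced first `ℓ²`-cohomology vanishes (`Q103.SG.coc_zero`).
-/

set_option autoImplicit false

namespace Pool.Agent.Results.MP_ea75ba_gt.RankOneOrManifold

open scoped Matrix

/-- Vectors over the real group ring. -/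
abbrev Vec (G : Type) [Group G] (k : ℕ) : Type := Fin k → MonoidAlgebra ℝ G

/-- Matrices over the real group ring. -/
abbrev Mat (G : Type) [Group G] (b a : ℕ) : Type := Matrix (Fin b) (Fin a) (MonoidAlgebra ℝ G)

variable {G : Type} [Group G] {a b d : ℕ}

/-- Row vector times matrix. -/
noncomputable def rowMul (v : Vec G b) (D : Mat G b a) : Vec G a := v ᵥ* D

/-- Matrix times column vector. -/
noncomputable def colMul (D : Mat G b a) (u : Vec G a) : Vec G b := D *ᵥ u

/-- Product of matrices. -/
noncomputable def matMul (D : Mat G b a) (C : Mat G a d) : Mat G b d := D * C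

/-- Multiplication of a row vector by `g` from the left. -/
noncomputable def leftMul (g : G) (v : Vec G a) : Vec G a := fun j => MonoidAlgebra.of ℝ G g * v j

/-- Multiplication of a column vector by `g` from the right. -/
noncomputable def rightMul (u : Vec G a) (g : G) : Vec G a := fun j => u j * MonoidAlgebra.of ℝ G g

/-- Value of a linear functional. -/
noncomputable def app (θ : Vec G a →ₗ[ℝ] ℝ) (v : Vec G a) : ℝ := θ v

/-- Value of a linear map to `ℝ[B]`. -/
noncomputable def appB {B : Type} (θ : Vec G a →ₗ[ℝ] (B →₀ ℝ)) (v : Vec G a) : B →₀ ℝ := θ v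

/-- The sign of `g` as a real number. -/
def sign (w : G →* ℤˣ) (g : G) : ℝ := (((w g : ℤˣ) : ℤ) : ℝ)

/-- The augmentation `ℝ[B] → ℝ`. -/
def augmentation {B : Type} (z : B →₀ ℝ) : ℝ := z.sum fun _ k => k

/-- The map `z ↦ w(g) g⁻¹ z` of `ℝ[B]`. -/
noncomputable def twist (w : G →* ℤˣ) {B : Type} [MulAction G B] (g : G) (z : B →₀ ℝ) : B →₀ ℝ :=
  sign w g • Finsupp.mapDomain (fun p => g⁻¹ • p) z

/-- `(c, E, D, ε)` is a resolution of the trivial module `ℝ` by finitely generated projective
`ℝ[G]`-modules of length at most `m`: the module in degree `i` is `P_i = {v ∈ ℝ[G]^(c i) | v E_i = v}`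
(row vectors), where `E_i` is an idempotent matrix, the boundary operators are `v ↦ v D_i`, and
`c i = 0` for `i > m`. -/
structure IsProjectiveResolution (c : ℕ → ℕ) (E : ∀ i, Mat G (c i) (c i))
    (D : ∀ i, Mat G (c (i + 1)) (c i)) (ε : Vec G (c 0) →ₗ[ℝ] ℝ) (m : ℕ) : Prop where
  bounded : ∀ i, m < i → c i = 0
  idem : ∀ i, matMul (E i) (E i) = E i
  left : ∀ i, matMul (E (i + 1)) (D i) = D i
  right : ∀ i, matMul (D i) (E i) = D i
  equivariant : ∀ g v, app ε (leftMul g v) = app ε v
  surjective : ∃ v, rowMul v (E 0) = v ∧ app ε v = 1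
  exact_zero : ∀ v, rowMul v (E 0) = v → (app ε v = 0 ↔ ∃ u, rowMul u (D 0) = v)
  exact_succ : ∀ i v, rowMul v (E (i + 1)) = v →
    (rowMul v (D i) = 0 ↔ ∃ u, rowMul u (D (i + 1)) = v)

/-- `H^n(G; ℝ[G]) ≅ ℝ` (with `w` as the action) and `H^(n-1)(G; ℝ[G]) = 0`: the case of a manifold
without boundary.  Equivariant maps `P_n → ℝ[G]` are given by the column vectors `u` with `E₂ u = u`,
and those of `P_(n-1)` by the column vectors with `E₁ u = u`; `D₁` and `D₀` are the boundary operators
in the degrees `n` and `n - 1`. -/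
structure ClosedDuality (E₁ : Mat G b b) (E₂ : Mat G d d) (D₀ : Mat G b a) (D₁ : Mat G d b)
    (w : G →* ℤˣ) : Prop where
  top : ∃ θ : Vec G d →ₗ[ℝ] ℝ,
    (∀ g u, colMul E₂ u = u → app θ (rightMul u g) = sign w g * app θ u) ∧
    (∃ u, colMul E₂ u = u ∧ app θ u = 1) ∧
    ∀ u, colMul E₂ u = u → (app θ u = 0 ↔ ∃ t, colMul D₁ t = u)
  next : ∀ u, colMul E₁ u = u → colMul D₁ u = 0 → ∃ t, colMul D₀ t = u

/-- Cocycles in degree `n - 1`. -/
def IsCocycle (E₁ : Mat G b b) (D₁ : Mat G d b) (u : Vec G b) : Prop :=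
  colMul E₁ u = u ∧ colMul D₁ u = 0

/-- `H^n(G; ℝ[G]) = 0` and `H^(n-1)(G; ℝ[G]) ≅ ker(ℝ[B] → ℝ)` (up to `w`): the case of a manifold
with boundary, where `B` is the set of the components of the boundary. -/
structure BoundaryDuality (E₁ : Mat G b b) (E₂ : Mat G d d) (D₀ : Mat G b a) (D₁ : Mat G d b)
    (w : G →* ℤˣ) (B : Type) [MulAction G B] : Prop where
  top : ∀ u, colMul E₂ u = u → ∃ t, colMul D₁ t = u
  next : ∃ θ : Vec G b →ₗ[ℝ] (B →₀ ℝ),
    (∀ u, IsCocycle E₁ D₁ u → (appB θ u = 0 ↔ ∃ t, colMul D₀ t = u)) ∧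
    (∀ z, (∃ u, IsCocycle E₁ D₁ u ∧ appB θ u = z) ↔ augmentation z = 0) ∧
    ∀ g u, IsCocycle E₁ D₁ u → appB θ (rightMul u g) = twist w g (appB θ u)

/-- Duality in the degrees `n` and `n - 1`, as for a contractible `n`-manifold without boundary, or
with a non-empty set `B` of boundary components, with infinite stabilizers. -/
def ManifoldDuality (E₁ : Mat G b b) (E₂ : Mat G d d) (D₀ : Mat G b a) (D₁ : Mat G d b)
    (w : G →* ℤˣ) : Prop :=
  ClosedDuality E₁ E₂ D₀ D₁ w ∨ ∃ (B : Type) (_ : Nonempty B) (_ : MulAction G B),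
    (∀ p : B, Infinite (MulAction.stabilizer G p)) ∧ BoundaryDuality E₁ E₂ D₀ D₁ w B

/-- The Hilbert space `ℓ²(G)` (with real scalars). -/
abbrev EllTwo (G : Type) : Type := lp (fun _ : G => ℝ) 2

/-- The Hilbert space `ℓ²(G)^k`. -/
abbrev Cochains (G : Type) (k : ℕ) : Type := PiLp 2 (fun _ : Fin k => EllTwo G)

/-- The action of the group ring: `(r f)(x) = ∑_g r_g f(g⁻¹ x)`. -/
noncomputable def act (r : MonoidAlgebra ℝ G) (f : G → ℝ) (x : G) : ℝ :=
  r.coeff.sum fun g k => k * f (g⁻¹ * x)

/-- `z = D y`. -/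
def IsImage (D : Mat G b a) (y : Cochains G a) (z : Cochains G b) : Prop :=
  ∀ (j : Fin b) (x : G), z j x = ∑ k, act (D j k) (y k) x

/-- The harmonic `ℓ²`-cochains in degree `i`: the elements `u` of `ℓ²(G)^(c i)` with `E_i u = u` (the
`ℓ²`-cochains) and `D_i u = 0` which are orthogonal to all coboundaries.  They are the orthogonal
complement of the closure of the coboundaries in the space of cocycles. -/
def Harmonic (c : ℕ → ℕ) (E : ∀ i, Mat G (c i) (c i)) (D : ∀ i, Mat G (c (i + 1)) (c i)) :
    ∀ i, Set (Cochains G (c i))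
  | 0 => {u | IsImage (E 0) u u ∧ IsImage (D 0) u 0}
  | (i + 1) => {u | IsImage (E (i + 1)) u u ∧ IsImage (D (i + 1)) u 0 ∧
      ∀ y z, IsImage (D i) y z → inner ℝ z u = 0}

/-- `L²H_i = 0`. -/
def L2Zero (c : ℕ → ℕ) (E : ∀ i, Mat G (c i) (c i)) (D : ∀ i, Mat G (c (i + 1)) (c i)) (i : ℕ) :
    Prop := ∀ u ∈ Harmonic c E D i, u = 0

/-- The inequality of Bruhat and Tits: a complete metric space is CAT(0) if and only if any two
points `p`, `q` have a midpoint `m` such that
`d(x, m)² ≤ (d(x, p)² + d(x, q)²) / 2 - d(p, q)² / 4` for all `x`. -/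
def BruhatTits (X : Type*) [MetricSpace X] : Prop := ∀ p q : X, ∃ m : X, ∀ x : X,
  dist x m ^ 2 ≤ (dist x p ^ 2 + dist x q ^ 2) / 2 - dist p q ^ 2 / 4

/-- Every geodesic segment extends to a geodesic line: for `p ≠ q` there is a line through `p` and
`q` (in a CAT(0) space it contains the unique geodesic segment from `p` to `q`). -/
def GeodesicallyComplete (X : Type*) [MetricSpace X] : Prop :=
  ∀ p q : X, p ≠ q → ∃ c : ℝ → X, Isometry c ∧ c 0 = p ∧ c (dist p q) = q

/-- The line `c` bounds a flat half-plane: there is an isometric embedding `H` of the Euclidean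
half-plane `ℝ × [0, ∞)` in `X` which extends `c`. -/
def BoundsHalfPlane {X : Type*} [MetricSpace X] (c : ℝ → X) : Prop :=
  ∃ H : ℝ × NNReal → X,
    (∀ p q : ℝ × NNReal, dist (H p) (H q) ^ 2 = (p.1 - q.1) ^ 2 + ((p.2 : ℝ) - q.2) ^ 2) ∧
    ∀ t : ℝ, H (t, 0) = c t

/-- `g` is a rank one isometry of `X`: it translates a geodesic line `c` by `τ > 0`, and this axis
does not bound a flat half-plane. -/
def IsRankOne (X : Type*) [MetricSpace X] {G : Type*} [Group G] [MulAction G X] (g : G) : Prop :=
  ∃ (τ : ℝ) (c : ℝ → X), 0 < τ ∧ Isometry c ∧ (∀ t, g • c t = c (t + τ)) ∧ ¬ BoundsHalfPlane c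

section bridge

open Pool.Agent.Q103.SG Pool.Agent.Helper386.PD3

theorem lr_eq_act (r : RG G) (f : L2 G) (x : G) : lr r f x = act r f x := by
  induction r using rg_ind with
  | h1 g =>
    rw [lr_of, act]
    change f (g⁻¹ * x) = (Finsupp.single g (1 : ℝ)).sum fun g k => k * f (g⁻¹ * x)
    rw [Finsupp.sum_single_index (by simp)]
    simp
  | h2 r s hr hs =>
    rw [lr_add]
    change lr r f x + lr s f x = _
    rw [hr, hs, act, act, act, MonoidAlgebra.coeff_add, Finsupp.sum_add_index']
    · intro g
      simp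
    · intro g k l
      ring
  | h3 c r hr =>
    rw [lr_smul]
    change c * lr r f x = _
    rw [hr, act, act, MonoidAlgebra.coeff_smul,
      Finsupp.sum_smul_index' (h := fun g k => k * f (g⁻¹ * x)) (fun g => zero_mul _),
      Finsupp.mul_sum]
    refine Finsupp.sum_congr fun g _ => ?_
    rw [smul_eq_mul, mul_assoc]

theorem isImage_iff (D : Mat G b a) (y : VV G a) (z : VV G b) : IsImage D y z ↔ z = cb D y := by
  have h1 : ∀ j x, (cb D y) j x = ∑ k, act (D j k) (y k) x := by
    intro j x
    rw [cb_apply, qr]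
    have : (∑ k, lr (D j k) (y k) : L2 G) x = ∑ k, (lr (D j k) (y k)) x :=
      map_sum (lp.evalCLM ℝ (fun _ : G => ℝ) 2 x) _ _
    rw [this]
    exact Finset.sum_congr rfl fun k _ => lr_eq_act _ _ _
  constructor
  · intro h
    apply vv_ext
    intro j
    ext x
    rw [h1]
    exact h j x
  · rintro rfl j x
    exact h1 j x

end bridge

/-- **`L²`-homology outside the middle dimension, or a rank one isometry.**  Let `G` be an infinite
group, and let `(c, E, D, ε)` be a resolution of `ℝ` by finitely generated projective `ℝ[G]`-modules of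
length at most `n = q + 2` with duality in the degrees `n` and `n - 1`; for instance the cellular chain
complex of a contractible `n`-manifold, with or without boundary, on which `G` acts geometrically.
Let `G` act geometrically on a proper geodesically complete CAT(0) space `X`.  Then `G` contains a
rank one isometry of `X`, or `L²H_i(G) = 0` for `i ≤ 1` and for `i ≥ n - 1`; in the second case, if
`n ≤ 4`, `L²H_i(G) = 0` for all `i ≠ n / 2`. -/
theorem result {q : ℕ} {G : Type} [Group G] [Infinite G] {c : ℕ → ℕ} {E : ∀ i, Mat G (c i) (c i)}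
    {D : ∀ i, Mat G (c (i + 1)) (c i)} {ε : Vec G (c 0) →ₗ[ℝ] ℝ}
    (hD : IsProjectiveResolution c E D ε (q + 2)) (w : G →* ℤˣ)
    (hdual : ManifoldDuality (E (q + 1)) (E (q + 2)) (D q) (D (q + 1)) w)
    {X : Type*} [MetricSpace X] [ProperSpace X] [Nonempty X] (hX : BruhatTits X)
    (hc : GeodesicallyComplete X) [MulAction G X] [IsIsometricSMul G X]
    [ProperlyDiscontinuousSMul G X]
    (hcc : ∃ K : Set X, IsCompact K ∧ ∀ x : X, ∃ g : G, g • x ∈ K) :
    (∃ g : G, IsRankOne X g) ∨ ((∀ i, i ≤ 1 ∨ q + 1 ≤ i → L2Zero c E D i) ∧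
      (q + 2 ≤ 4 → ∀ i, 2 * i ≠ q + 2 → L2Zero c E D i)) := by
  have hgeo : Pool.Agent.Y34.HB.Geo X G := ⟨inferInstance, inferInstance, inferInstance, hcc, hX⟩
  by_cases hno : ∀ g : G, ¬ Pool.Agent.Y34.EL.RankOne X g
  · right
    have hA : Pool.Agent.Q103.SG.Approx G := fun b hb T δ hδ =>
      Pool.Agent.Q103.SG.approx_of_geo hgeo hc hno (Classical.arbitrary X) b hb T δ hδ
    have hfg : Group.FG G := Pool.Agent.Q103.SG.fg_of_geo hgeo (Classical.arbitrary X)
    have hlow : Pool.Agent.Q103.SG.LowR (E 0) (E 1) (D 0) (D 1) ε :=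
      { ee0 := hD.idem 0
        ee1 := hD.idem 1
        d0e0 := hD.right 0
        e1d0 := hD.left 0
        equi := hD.equivariant
        surj := hD.surjective
        epsd := fun v => (hD.exact_zero (v ᵥ* D 0) (by
          change (v ᵥ* D 0) ᵥ* E 0 = _
          rw [Matrix.vecMul_vecMul]
          exact congrArg _ (hD.right 0))).2 ⟨v, rfl⟩
        ex0 := fun v hv h0 => (hD.exact_zero v hv).1 h0
        ex1 := fun v hv h0 => (hD.exact_succ 0 v hv).1 h0 }
    have h1 : ∀ i, i ≤ 1 ∨ q + 1 ≤ i → L2Zero c E D i := by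
      intro i hi
      by_cases hi0 : i = 0
      · subst hi0
        rintro u ⟨hu1, hu2⟩
        exact Pool.Agent.Q103.SG.lowR_zero hlow ((isImage_iff _ _ _).1 hu1).symm
          ((isImage_iff _ _ _).1 hu2).symm
      by_cases hi1 : i = 1
      · subst hi1
        rintro u ⟨hu1, hu2, hu3⟩
        have h2 := Pool.Agent.Q103.SG.lowR_one hA hlow ((isImage_iff _ _ _).1 hu1).symm
          ((isImage_iff _ _ _).1 hu2).symm
        have h3 := Pool.Agent.Q103.SG.orth_closure
          (W := Set.range (Pool.Agent.Q103.SG.cb (D 0))) (x := u) (by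
            rintro _ ⟨y, rfl⟩
            rw [real_inner_comm]
            exact hu3 y _ ((isImage_iff _ _ _).2 rfl)) u h2
        exact inner_self_eq_zero.1 h3
      have hq : q + 1 ≤ i := hi.resolve_left (by omega)
      rcases Nat.lt_or_ge (q + 2) i with h2 | h2
      · intro u _
        apply Pool.Agent.Helper386.PD3.vv_ext
        intro k
        have h8 := k.isLt
        have h9 := hD.bounded i h2
        omega
      have hid := hD.idem (q + 1)
      have hid' := hD.idem (q + 2)
      have hl := hD.left (q + 1)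
      have hr := hD.right (q + 1)
      have hl' := hD.left q
      rcases hdual with hcl | ⟨B, hne, hact, hst, hbd⟩
      · obtain ⟨θ, t1, t2, t3⟩ := hcl.top
        have hL := Pool.Agent.Q103.SG.low_dual w (E2 := E (q + 2)) (E1 := E (q + 1))
          (D0 := D q) (D1 := D (q + 1)) hid' hid hl hr t1 t2 t3 hcl.next
        rcases Nat.lt_or_ge i (q + 2) with h3 | h3
        · obtain rfl : i = q + 1 := by omega
          rintro u ⟨hu1, hu2, hu3⟩
          exact Pool.Agent.Q103.SG.closed_one w hA hl' hL ((isImage_iff _ _ _).1 hu1).symm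
            ((isImage_iff _ _ _).1 hu2).symm fun y => hu3 y _ ((isImage_iff _ _ _).2 rfl)
        · obtain rfl : i = q + 2 := by omega
          rintro u ⟨hu1, hu2, hu3⟩
          exact Pool.Agent.Q103.SG.closed_zero w hL ((isImage_iff _ _ _).1 hu1).symm
            fun y => hu3 y _ ((isImage_iff _ _ _).2 rfl)
      · rcases Nat.lt_or_ge i (q + 2) with h3 | h3
        · obtain rfl : i = q + 1 := by omega
          rintro u ⟨hu1, hu2, hu3⟩
          obtain ⟨θ, t1, t2, t3⟩ := hbd.next
          exact Pool.Agent.Q103.SG.bdryR_one w hA hfg hst hid' hid hl hr hbd.top θ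
            (fun u h1 h2 h3 => (t1 u ⟨h1, h2⟩).1 h3)
            (fun z => (by
              constructor
              · rintro ⟨u, h1, h2, h3⟩
                exact ⟨u, ⟨h1, h2⟩, h3⟩
              · rintro ⟨u, ⟨h1, h2⟩, h3⟩
                exact ⟨u, h1, h2, h3⟩ : _ ↔ _).trans (t2 z))
            (fun g u h1 h2 => t3 g u ⟨h1, h2⟩)
            ((isImage_iff _ _ _).1 hu1).symm
            ((isImage_iff _ _ _).1 hu2).symm fun y => hu3 y _ ((isImage_iff _ _ _).2 rfl)
        · obtain rfl : i = q + 2 := by omega
          rintro u ⟨hu1, hu2, hu3⟩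
          exact Pool.Agent.Q103.SG.bdryR_zero hid' hbd.top ((isImage_iff _ _ _).1 hu1).symm
            fun y => hu3 y _ ((isImage_iff _ _ _).2 rfl)
    exact ⟨h1, fun hq i hi => h1 i (by omega)⟩
  · left
    push Not at hno
    obtain ⟨g, τ, c, hτ, hc, he⟩ := hno
    refine ⟨g, τ, c, hτ, hc.1, hc.2, ?_⟩
    rintro ⟨H, hH⟩
    have : H ∈ Pool.Agent.Y34.HB.HP c := hH
    rw [he] at this
    exact this

end Pool.Agent.Results.MP_ea75ba_gt.RankOneOrManifold
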